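import Mathlib
import Pool.Agent.U251.LD.Stm

set_option autoImplicit false

/-!
# The mean value of the divisor function of order four
-/

namespace Pool.Agent.U212.LD

open Filter Finset Real Asymptotics Pool.Agent.U251.LD
open scoped Topology ArithmeticFunction ArithmeticFunction.zeta

/-- increments of the powers of the logarithm -/
noncomputable def inc (k : ℕ) (n : ℕ) : ℝ :=
  log ((n + 1 : ℕ) : ℝ) ^ (k + 1) - log (n : ℝ) ^ (k + 1)

theorem tendsto_log : Tendsto (fun n : ℕ => log (n : ℝ)) atTop atTop :=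
  tendsto_log_atTop.comp tendsto_natCast_atTop_atTop

theorem inc_nonneg (k n : ℕ) : 0 ≤ inc k n := by
  unfold inc
  have h0 : 0 ≤ log (n : ℝ) := log_natCast_nonneg n
  have h1 : log (n : ℝ) ≤ log ((n + 1 : ℕ) : ℝ) := by
    rcases Nat.eq_zero_or_pos n with h | h
    · subst h; simp
    · exact log_le_log (by exact_mod_cast h) (by push_cast; linarith)
  linarith [pow_le_pow_left₀ h0 h1 (k + 1)]

theorem inc_pos (k : ℕ) {n : ℕ} (hn : 1 ≤ n) : 0 < inc k n := by
  unfold inc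
  have hn0 : (0 : ℝ) < n := by exact_mod_cast hn
  have h0 : 0 ≤ log (n : ℝ) := log_natCast_nonneg n
  have h1 : log (n : ℝ) < log ((n + 1 : ℕ) : ℝ) := log_lt_log hn0 (by push_cast; linarith)
  have h2 : log (n : ℝ) ^ (k + 1) < log ((n + 1 : ℕ) : ℝ) ^ (k + 1) :=
    pow_lt_pow_left₀ h1 h0 (Nat.succ_ne_zero k)
  linarith

theorem sum_inc (k X : ℕ) : ∑ n ∈ range X, inc k n = log (X : ℝ) ^ (k + 1) := by
  unfold inc
  rw [Finset.sum_range_sub (fun n : ℕ => log (n : ℝ) ^ (k + 1))]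
  simp

theorem tendsto_n_log : Tendsto (fun n : ℕ => (n : ℝ) * (log ((n + 1 : ℕ) : ℝ) - log (n : ℝ)))
    atTop (𝓝 1) := by
  have h := (Real.tendsto_mul_log_one_add_div_atTop 1).comp tendsto_natCast_atTop_atTop
  refine h.congr' ?_
  filter_upwards [eventually_ge_atTop 1] with n hn
  have hn0 : (0 : ℝ) < n := by exact_mod_cast hn
  simp only [Function.comp_apply]
  rw [← log_div (by positivity) (by positivity)]
  congr 2
  push_cast
  field_simp

theorem tendsto_ratio : Tendsto (fun n : ℕ => log ((n + 1 : ℕ) : ℝ) / log (n : ℝ)) atTop (𝓝 1) := by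
  have h3 := Real.tendsto_log_nat_add_one_sub_log.div_atTop tendsto_log
  have h4 := h3.const_add 1
  rw [add_zero] at h4
  refine h4.congr' ?_
  filter_upwards [tendsto_log.eventually_gt_atTop 0] with n hn
  push_cast
  field_simp
  ring

theorem inc_asymp (k : ℕ) :
    Tendsto (fun n : ℕ => inc k n / (log (n : ℝ) ^ k / n)) atTop (𝓝 ((k : ℝ) + 1)) := by
  have h : Tendsto (fun n : ℕ => (∑ i ∈ range (k + 1),
      (log ((n + 1 : ℕ) : ℝ) / log (n : ℝ)) ^ i) *
      ((n : ℝ) * (log ((n + 1 : ℕ) : ℝ) - log (n : ℝ)))) atTop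
      (𝓝 ((∑ i ∈ range (k + 1), (1 : ℝ) ^ i) * 1)) :=
    (tendsto_finsetSum _ fun i _ => tendsto_ratio.pow i).mul tendsto_n_log
  have e : (∑ i ∈ range (k + 1), (1 : ℝ) ^ i) * 1 = (k : ℝ) + 1 := by simp
  rw [e] at h
  refine h.congr' ?_
  filter_upwards [tendsto_log.eventually_gt_atTop 0, eventually_gt_atTop 0] with n hn hn0
  have hn1 : (0 : ℝ) < n := by exact_mod_cast hn0
  set x : ℝ := log ((n + 1 : ℕ) : ℝ) with hx
  set y : ℝ := log (n : ℝ) with hy
  have h1 : ∑ i ∈ range (k + 1), x ^ i * y ^ (k + 1 - 1 - i) =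
      y ^ k * ∑ i ∈ range (k + 1), (x / y) ^ i := by
    rw [mul_sum]
    refine sum_congr rfl fun i hi => ?_
    have hi' : i ≤ k := by
      rw [mem_range] at hi
      omega
    have h2 : y ^ k = y ^ i * y ^ (k + 1 - 1 - i) := by
      rw [← pow_add]
      congr 1
      omega
    rw [h2, div_pow]
    field_simp
  rw [inc, ← geom_sum₂_mul, h1]
  field_simp
  rw [hx, hy]

theorem abel (f : ℕ → ℝ) (X : ℕ) : ∑ n ∈ Ioc 0 X, f n / n =
    (∑ n ∈ Ioc 0 X, f n) / X +
      ∑ n ∈ range X, (∑ m ∈ Ioc 0 n, f m) / ((n : ℝ) * ((n : ℝ) + 1)) := by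
  induction X with
  | zero => simp
  | succ X ih =>
    rw [sum_Ioc_succ_top (Nat.zero_le X), sum_Ioc_succ_top (Nat.zero_le X), sum_range_succ, ih]
    rcases Nat.eq_zero_or_pos X with h | h
    · subst h; simp
    · have hX : (0 : ℝ) < X := by exact_mod_cast h
      push_cast
      field_simp
      ring

theorem lemA {f : ℕ → ℝ} {k : ℕ} {c : ℝ}
    (h : Tendsto (fun X : ℕ => (∑ n ∈ Ioc 0 X, f n) / (X * log X ^ k)) atTop (𝓝 c)) :
    Tendsto (fun X : ℕ => (∑ n ∈ Ioc 0 X, f n / n) / log X ^ (k + 1)) atTop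
      (𝓝 (c / ((k : ℝ) + 1))) := by
  obtain ⟨a, ha⟩ : ∃ a : ℕ → ℝ, a = fun n => (∑ m ∈ Ioc 0 n, f m) / ((n : ℝ) * ((n : ℝ) + 1)) :=
    ⟨_, rfl⟩
  have hk : (0 : ℝ) < (k : ℝ) + 1 := by positivity
  have h0 : Tendsto (fun n : ℕ => (n : ℝ) / ((n : ℝ) + 1)) atTop (𝓝 1) :=
    tendsto_natCast_div_add_atTop 1
  have h1 : Tendsto (fun n : ℕ => a n / inc k n) atTop (𝓝 (c / ((k : ℝ) + 1))) := by
    have h2 := (h.mul h0).div (inc_asymp k) hk.ne'
    rw [mul_one] at h2
    refine h2.congr' ?_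
    filter_upwards [tendsto_log.eventually_gt_atTop 0, eventually_gt_atTop 0] with n hn hn0
    have hn1 : (0 : ℝ) < n := by exact_mod_cast hn0
    have hi := inc_pos k (show 1 ≤ n from hn0)
    simp only [Pi.div_apply]
    rw [ha]
    field_simp
  have h2 : (fun n => a n - c / ((k : ℝ) + 1) * inc k n) =o[atTop] inc k := by
    refine isLittleO_of_tendsto' ?_ ?_
    · filter_upwards [eventually_ge_atTop 1] with n hn h3
      exact absurd h3 (inc_pos k hn).ne'
    · have h3 := h1.sub_const (c / ((k : ℝ) + 1))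
      rw [sub_self] at h3
      refine h3.congr' ?_
      filter_upwards [eventually_ge_atTop 1] with n hn
      have := inc_pos k hn
      field_simp
  have hlk : Tendsto (fun X : ℕ => log (X : ℝ) ^ (k + 1)) atTop atTop :=
    (tendsto_pow_atTop (Nat.succ_ne_zero k)).comp tendsto_log
  have h3 := h2.sum_range (fun n => inc_nonneg k n) (by simpa only [sum_inc] using hlk)
  simp only [sum_inc, sum_sub_distrib, ← mul_sum] at h3
  have h4 := h3.tendsto_div_nhds_zero
  have h5 : Tendsto (fun X : ℕ => ((∑ n ∈ Ioc 0 X, f n) / (X * log X ^ k)) / log X) atTop (𝓝 0) :=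
    h.div_atTop tendsto_log
  have h6 := (h4.add_const (c / ((k : ℝ) + 1))).add h5
  rw [zero_add, add_zero] at h6
  refine h6.congr' ?_
  filter_upwards [tendsto_log.eventually_gt_atTop 0, eventually_gt_atTop 0] with n hn hn0
  have hn1 : (0 : ℝ) < n := by exact_mod_cast hn0
  rw [abel, ha]
  field_simp
  ring

theorem lemB {f : ArithmeticFunction ℝ} (hf : ∀ n, 0 ≤ f n) {k : ℕ} {c : ℝ}
    (h : Tendsto (fun X : ℕ => (∑ n ∈ Ioc 0 X, f n) / (X * log X ^ k)) atTop (𝓝 c)) :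
    Tendsto (fun X : ℕ => (∑ n ∈ Ioc 0 X, (f * (ζ : ArithmeticFunction ℝ)) n) /
      (X * log X ^ (k + 1))) atTop (𝓝 (c / ((k : ℝ) + 1))) := by
  have h1 := lemA h
  have h2 : Tendsto (fun X : ℕ => ((∑ n ∈ Ioc 0 X, f n) / (X * log X ^ k)) / log X) atTop (𝓝 0) :=
    h.div_atTop tendsto_log
  have h3 := h1.sub h2
  rw [sub_zero] at h3
  refine tendsto_of_tendsto_of_tendsto_of_le_of_le' h3 h1 ?_ ?_
  · filter_upwards [tendsto_log.eventually_gt_atTop 0, eventually_gt_atTop 0] with X hX hX0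
    have hX1 : (0 : ℝ) < X := by exact_mod_cast hX0
    have h4 : (X : ℝ) * (∑ n ∈ Ioc 0 X, f n / n) - ∑ n ∈ Ioc 0 X, f n ≤
        ∑ n ∈ Ioc 0 X, (f * (ζ : ArithmeticFunction ℝ)) n := by
      rw [ArithmeticFunction.sum_Ioc_mul_zeta_eq_sum, mul_sum, ← sum_sub_distrib]
      refine sum_le_sum fun n hn => ?_
      have hn1 : 0 < n := (mem_Ioc.1 hn).1
      have hn2 : (0 : ℝ) < n := by exact_mod_cast hn1
      have h5 : (X : ℝ) < n * (((X / n : ℕ) : ℝ) + 1) := by
        exact_mod_cast Nat.lt_mul_div_succ X hn1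
      have h6 : (X : ℝ) / n - 1 ≤ ((X / n : ℕ) : ℝ) := by
        rw [sub_le_iff_le_add, div_le_iff₀ hn2]
        linarith
      calc (X : ℝ) * (f n / n) - f n = f n * ((X : ℝ) / n - 1) := by ring
        _ ≤ f n * ((X / n : ℕ) : ℝ) := mul_le_mul_of_nonneg_left h6 (hf n)
    have e : (∑ n ∈ Ioc 0 X, f n / n) / log X ^ (k + 1) -
        ((∑ n ∈ Ioc 0 X, f n) / (X * log X ^ k)) / log X =
        ((X : ℝ) * (∑ n ∈ Ioc 0 X, f n / n) - ∑ n ∈ Ioc 0 X, f n) / (X * log X ^ (k + 1)) := by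
      field_simp
      ring
    rw [e]
    exact div_le_div_of_nonneg_right h4 (by positivity)
  · filter_upwards [tendsto_log.eventually_gt_atTop 0, eventually_gt_atTop 0] with X hX hX0
    have hX1 : (0 : ℝ) < X := by exact_mod_cast hX0
    have h4 : ∑ n ∈ Ioc 0 X, (f * (ζ : ArithmeticFunction ℝ)) n ≤
        (X : ℝ) * (∑ n ∈ Ioc 0 X, f n / n) := by
      rw [ArithmeticFunction.sum_Ioc_mul_zeta_eq_sum, mul_sum]
      refine sum_le_sum fun n hn => ?_
      calc f n * ((X / n : ℕ) : ℝ) ≤ f n * ((X : ℝ) / n) :=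
            mul_le_mul_of_nonneg_left Nat.cast_div_le (hf n)
        _ = (X : ℝ) * (f n / n) := by ring
    have e : (∑ n ∈ Ioc 0 X, f n / n) / log X ^ (k + 1) =
        ((X : ℝ) * (∑ n ∈ Ioc 0 X, f n / n)) / (X * log X ^ (k + 1)) := by
      field_simp
    rw [e]
    exact div_le_div_of_nonneg_right h4 (by positivity)

theorem zeta_nonneg (n : ℕ) : 0 ≤ (ζ : ArithmeticFunction ℝ) n := by
  rw [ArithmeticFunction.natCoe_apply]
  positivity

theorem mul_zeta_nonneg {f : ArithmeticFunction ℝ} (hf : ∀ n, 0 ≤ f n) (n : ℕ) :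
    0 ≤ (f * (ζ : ArithmeticFunction ℝ)) n := by
  rw [ArithmeticFunction.coe_mul_zeta_apply]
  exact sum_nonneg fun i _ => hf i

theorem dv_eq (n : ℕ) : ((ζ : ArithmeticFunction ℝ) * (ζ : ArithmeticFunction ℝ)) n = dv n := by
  rw [ArithmeticFunction.coe_mul_zeta_apply, dv, card_eq_sum_ones, Nat.cast_sum]
  refine sum_congr rfl fun i hi => ?_
  have : i ≠ 0 := (Nat.pos_of_mem_divisors hi).ne'
  rw [ArithmeticFunction.natCoe_apply, ArithmeticFunction.zeta_apply_ne this]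

theorem d4_eq (n : ℕ) : ((ζ : ArithmeticFunction ℝ) * (ζ : ArithmeticFunction ℝ) *
    (ζ : ArithmeticFunction ℝ) * (ζ : ArithmeticFunction ℝ)) n = d4 n := by
  rw [mul_assoc, ArithmeticFunction.mul_apply, d4]
  exact sum_congr rfl fun p _ => by rw [dv_eq, dv_eq]

/-- **package D4** -/
theorem t_D4 : S_D4 := by
  have h1 : Tendsto (fun X : ℕ => (∑ n ∈ Ioc 0 X, (ζ : ArithmeticFunction ℝ) n) /
      (X * log X ^ 0)) atTop (𝓝 1) := by
    refine tendsto_const_nhds.congr' ?_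
    filter_upwards [eventually_gt_atTop 0] with X hX
    have hX1 : (X : ℝ) ≠ 0 := by exact_mod_cast hX.ne'
    have h2 : ∑ n ∈ Ioc 0 X, (ζ : ArithmeticFunction ℝ) n = X := by
      have h3 := ArithmeticFunction.sum_Ioc_zeta X
      simp_rw [ArithmeticFunction.natCoe_apply]
      exact_mod_cast h3
    rw [h2, pow_zero, mul_one, div_self hX1]
  have h2 := lemB zeta_nonneg h1
  have h3 := lemB (mul_zeta_nonneg zeta_nonneg) h2
  have h4 := lemB (mul_zeta_nonneg (mul_zeta_nonneg zeta_nonneg)) h3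
  unfold S_D4
  have e : (1 : ℝ) / (((0 : ℕ) : ℝ) + 1) / (((0 + 1 : ℕ) : ℝ) + 1) / (((0 + 1 + 1 : ℕ) : ℝ) + 1) =
      1 / 6 := by norm_num
  rw [e] at h4
  refine h4.congr fun X => ?_
  have e2 : Icc 1 X = Ioc 0 X := by
    ext x
    simp only [mem_Icc, mem_Ioc]
    omega
  rw [e2]
  simp_rw [d4_eq]

end Pool.Agent.U212.LD

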